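import Pool.Agent.K7.H99.OV.Main

/-!
# MP_d9d2fc_pr, Q1: the optimal overlap is non-decreasing in the intensity

`optOverlap d fin fout lam` is the optimal overlap `O*(lam)` of the spatial two-community model
with connection functions `fin`, `fout` (definitions in `Pool/Agent/K7/H99/OV/Defs.lean`).
No assumption beyond measurability is needed.
-/

namespace Pool.Agent.Results.MP_d9d2fc_pr.Monotone

open Pool.Agent.K7.H99.OV

/-- For every dimension and all measurable connection functions the optimal overlap is a
non-decreasing function of the intensity on `(0, ∞)`. -/
theorem result (d : ℕ) (fin fout : ℝ → ℝ) (hfin : Measurable fin) (hfout : Measurable fout) :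
    MonotoneOn (optOverlap d fin fout) (Set.Ioi 0) :=
  optOverlap_mono hfin hfout

end Pool.Agent.Results.MP_d9d2fc_pr.Monotone
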